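import Pool.Agent.Helper35.PI2.St

/-!
# Project PI2 (MP_b2fa09_gt), module EQ: product rule for the cut-off field
-/

set_option autoImplicit false

namespace Helper29.PI2

open Helper35.PI Helper35.PI2
open scoped ContDiff Manifold Topology
open Set Filter

/-- derivative of `x ↦ (max 0 x)⁴` -/
private lemma eq_phi (x : ℝ) : HasDerivAt (fun x : ℝ => max 0 x ^ 4) (4 * max 0 x ^ 3) x := by
  rcases lt_trichotomy x 0 with h | h | h
  · have e : (fun x : ℝ => max 0 x ^ 4) =ᶠ[𝓝 x] fun _ => (0 : ℝ) := by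
      filter_upwards [gt_mem_nhds h] with y hy
      rw [max_eq_left hy.le]; norm_num
    rw [max_eq_left h.le]
    norm_num
    exact (hasDerivAt_const x (0 : ℝ)).congr_of_eventuallyEq e
  · subst h
    rw [max_self]
    norm_num
    have h1 : (fun x : ℝ => max 0 x ^ 4) =O[𝓝 (0 : ℝ)] fun x : ℝ => ‖x - 0‖ ^ 4 := by
      refine Asymptotics.IsBigO.of_bound 1 (Eventually.of_forall fun x => ?_)
      rw [sub_zero, one_mul, norm_pow, norm_pow, norm_norm]
      refine pow_le_pow_left₀ (norm_nonneg _) ?_ 4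
      rw [Real.norm_eq_abs, Real.norm_eq_abs, abs_of_nonneg (le_max_left 0 x)]
      exact max_le (abs_nonneg x) (le_abs_self x)
    have h2 := h1.hasFDerivAt (𝕜 := ℝ) (by norm_num)
    have h3 := h2.hasDerivAt
    simpa using h3
  · have e : (fun x : ℝ => max 0 x ^ 4) =ᶠ[𝓝 x] fun x => x ^ 4 := by
      filter_upwards [lt_mem_nhds h] with y hy
      rw [max_eq_right hy.le]
    rw [max_eq_right h.le]
    refine HasDerivAt.congr_of_eventuallyEq ?_ e
    have := hasDerivAt_pow 4 x
    simpa using this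

private lemma eq_phiC : ContDiff ℝ 1 (fun x : ℝ => max 0 x ^ 4) := by
  rw [contDiff_one_iff_deriv]
  refine ⟨fun x => (eq_phi x).differentiableAt, ?_⟩
  have e : deriv (fun x : ℝ => max 0 x ^ 4) = fun x => 4 * max 0 x ^ 3 := by
    funext x; exact (eq_phi x).deriv
  rw [e]
  fun_prop

/-- the derivative of the cut off field in a chart -/
private lemma eq_der {n N : ℕ} (f g : EE n → EE N) (y : EE n) (hf : DifferentiableAt ℝ f y)
    (hg : DifferentiableAt ℝ g y) (R : ℝ) (v : EE n) :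
    fderiv ℝ (fun y => max 0 (1 - ‖f y‖ ^ 2 / R ^ 2) ^ 4 • g y) y v =
      (max 0 (1 - ‖f y‖ ^ 2 / R ^ 2) ^ 4) • fderiv ℝ g y v +
        (-(8 / R ^ 2) * max 0 (1 - ‖f y‖ ^ 2 / R ^ 2) ^ 3 *
          inner ℝ (f y) (fderiv ℝ f y v)) • g y := by
  have h1 : HasFDerivAt f (fderiv ℝ f y) y := hf.hasFDerivAt
  have h2 := h1.norm_sq
  have h2' := h2.mul_const (1 / R ^ 2)
  have h3 := h2'.const_sub 1
  have e0 : (fun y => 1 - ‖f y‖ ^ 2 / R ^ 2) = fun y => 1 - ‖f y‖ ^ 2 * (1 / R ^ 2) := by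
    funext y
    ring
  have h3' : HasFDerivAt (fun y => 1 - ‖f y‖ ^ 2 / R ^ 2)
      (-((1 / R ^ 2) • (2 • (innerSL ℝ (f y)).comp (fderiv ℝ f y)))) y := by
    rw [e0]
    exact h3
  have h4 := (eq_phi (1 - ‖f y‖ ^ 2 / R ^ 2)).comp_hasFDerivAt y h3'
  have h6 := h4.smul hg.hasFDerivAt
  have e : (fun y => max 0 (1 - ‖f y‖ ^ 2 / R ^ 2) ^ 4 • g y) =
      (((fun x : ℝ => max 0 x ^ 4) ∘ fun y => 1 - ‖f y‖ ^ 2 / R ^ 2) • g) := rfl
  rw [e, h6.fderiv]
  simp only [Function.comp_apply, add_apply, smul_apply,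
    ContinuousLinearMap.smulRight_apply, ContinuousLinearMap.comp_apply, innerSL_apply_apply,
    neg_apply, smul_eq_mul]
  congr 2
  ring

/-- product rule for the cut-off field -/
theorem hEQ (hI2 : StI2) (_hI3 : StI3) (hNR : StNR) (_hFR : StFR) : StEQ := by
  intro n N M _ _ _ F hF R t hR ht V hV hVT
  have hG : ContMDiff (𝓡 n) 𝓘(ℝ, EE N) ∞ (fun q => F q t) := by
    have h1 : ContMDiff (𝓡 n) ((𝓡 n).prod 𝓘(ℝ, ℝ)) ∞ (fun q : M => (q, t)) :=
      contMDiff_id.prodMk contMDiff_const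
    exact hF.smooth.comp_contMDiff h1 (fun q => ⟨mem_univ _, ht⟩)
  have hG1 : ContMDiff (𝓡 n) 𝓘(ℝ, EE N) 1 (fun q => F q t) := hG.of_le (by simp)
  constructor
  · have hφ : ContMDiff (𝓡 n) 𝓘(ℝ, ℝ) 1 (fun q => psR R F q t ^ 4) := by
      have h2 : ContDiff ℝ 1 (fun e : EE N => max 0 (1 - ‖e‖ ^ 2 / R ^ 2) ^ 4) := by
        have h3 : ContDiff ℝ 1 (fun e : EE N => 1 - ‖e‖ ^ 2 / R ^ 2) :=
          contDiff_const.sub ((contDiff_norm_sq ℝ).div_const _)
        exact eq_phiC.comp h3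
      exact h2.contMDiff.comp hG1
    exact hφ.smul hV
  · intro q
    set x := chartAt (EE n) q q with hx
    set f := loc (n := n) F q t with hf
    set g : EE n → EE N := fun y => V ((chartAt (EE n) q).symm y) with hg
    have hleft : (chartAt (EE n) q).symm x = q := (chartAt (EE n) q).left_inv (mem_chart_source (EE n) q)
    have hxt : x ∈ (chartAt (EE n) q).target := mem_chart_target (EE n) q
    have hfx : f x = F q t := by
      rw [hf]
      unfold loc
      rw [hleft]
    have hgx : g x = V q := by rw [hg]; simp only [hleft]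
    have hd : DifferentiableAt ℝ f x := by
      have h1 := hI2 n N M F hF q
      have h2 : ContDiffAt ℝ ∞ (fun z : EE n × ℝ => F ((chartAt (EE n) q).symm z.1) z.2) (x, t) :=
        h1.contDiffAt (((chartAt (EE n) q).open_target.prod isOpen_Iio).mem_nhds ⟨hxt, ht⟩)
      have h3 : DifferentiableAt ℝ (fun z : EE n × ℝ => F ((chartAt (EE n) q).symm z.1) z.2)
          ((fun y : EE n => (y, t)) x) := h2.differentiableAt (by simp)
      have h4 : DifferentiableAt ℝ (fun y : EE n => (y, t)) x := by fun_prop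
      exact DifferentiableAt.comp (g := fun z : EE n × ℝ => F ((chartAt (EE n) q).symm z.1) z.2)
        (f := fun y : EE n => (y, t)) x h3 h4
    have h1le : (1 : WithTop ℕ∞) ≤ ∞ := by
      have : ((1 : ℕ∞) : WithTop ℕ∞) ≤ ((⊤ : ℕ∞) : WithTop ℕ∞) := WithTop.coe_le_coe.2 le_top
      exact this
    have hgd : DifferentiableAt ℝ g x := by
      have hs : ContMDiffAt (𝓡 n) (𝓡 n) 1 (chartAt (EE n) q).symm x := by
        have := (contMDiffOn_chart_symm (I := 𝓡 n) (n := ∞) (H := EE n) (x := q)).contMDiffAt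
          ((chartAt (EE n) q).open_target.mem_nhds hxt)
        exact this.of_le h1le
      have hV' : ContMDiffAt (𝓡 n) 𝓘(ℝ, EE N) 1 V ((chartAt (EE n) q).symm x) := hV _
      have h := ContMDiffAt.comp x hV' hs
      have h5 : ContDiffAt ℝ 1 g x := contMDiffAt_iff_contDiffAt.mp h
      exact h5.differentiableAt (by norm_num)
    have hLI : LI f x := hF.imm q t ht
    -- the tangential part
    have hsym : ∀ i j, (gram f x)⁻¹ i j = (gram f x)⁻¹ j i := by
      intro i j
      have h1 : (gram f x).transpose = gram f x := by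
        ext a b
        simp only [Matrix.transpose_apply, gram, Matrix.of_apply]
        rw [real_inner_comm]
      have h2 : ((gram f x)⁻¹).transpose = (gram f x)⁻¹ := by
        rw [Matrix.transpose_nonsing_inv, h1]
      have h3 := congrFun (congrFun h2 j) i
      rw [Matrix.transpose_apply] at h3
      exact h3
    have hVx : V q ∈ Submodule.span ℝ (range fun i => dv1 f x i) := hVT q
    have hnr : nrm f x (V q) = 0 := (hNR n N f x hLI).2.1 _ hVx
    have hcontr : ∑ i, ∑ j, (gram f x)⁻¹ i j *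
        ((inner ℝ (F q t) (dv1 f x i) : ℝ) * inner ℝ (V q) (dv1 f x j)) =
        inner ℝ (F q t) (V q) := by
      have h1 : V q = ∑ k, ∑ l, ((gram f x)⁻¹ k l * inner ℝ (V q) (dv1 f x k)) • dv1 f x l := by
        unfold nrm at hnr
        exact sub_eq_zero.mp hnr
      conv_rhs => rw [h1]
      simp only [inner_sum, real_inner_smul_right]
      rw [Finset.sum_comm]
      refine Finset.sum_congr rfl fun i _ => Finset.sum_congr rfl fun j _ => ?_
      rw [hsym j i]
      ring
    have hpsi : psR R F q t = max 0 (1 - ‖f x‖ ^ 2 / R ^ 2) := by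
      unfold psR
      rw [hfx]
    unfold dvg
    rw [← hx, ← hf]
    have e : (fun y => (fun q => psR R F q t ^ 4 • V q) ((chartAt (EE n) q).symm y)) =
        fun y => max 0 (1 - ‖f y‖ ^ 2 / R ^ 2) ^ 4 • g y := by
      funext y
      rfl
    rw [e]
    simp only [eq_der f g x hd hgd R, inner_add_left, real_inner_smul_left]
    rw [← hpsi, hfx, hgx]
    have e2 : ∀ i j, (gram f x)⁻¹ i j * (psR R F q t ^ 4 *
        (inner ℝ (fderiv ℝ g x (ee i)) (dv1 f x j) : ℝ) +
        -(8 / R ^ 2) * psR R F q t ^ 3 * inner ℝ (F q t) (fderiv ℝ f x (ee i)) *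
          inner ℝ (V q) (dv1 f x j)) =
        psR R F q t ^ 4 * ((gram f x)⁻¹ i j * (inner ℝ (fderiv ℝ g x (ee i)) (dv1 f x j) : ℝ)) +
        -(8 / R ^ 2 * psR R F q t ^ 3) * ((gram f x)⁻¹ i j *
        ((inner ℝ (F q t) (dv1 f x i) : ℝ) * inner ℝ (V q) (dv1 f x j))) := by
      intro i j
      change _ = _ + -(8 / R ^ 2 * psR R F q t ^ 3) * ((gram f x)⁻¹ i j *
        ((inner ℝ (F q t) (fderiv ℝ f x (ee i)) : ℝ) * inner ℝ (V q) (dv1 f x j)))
      ring
    simp only [e2, Finset.sum_add_distrib, ← Finset.mul_sum]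
    rw [hcontr]
    ring

end Helper29.PI2
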